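import Pool.Agent.H16.TG9

set_option autoImplicit false

open Filter Topology Pool.Agent.H16.Cut

namespace Pool.Agent.Results.MP_8d2225_pr.NoCutoff

/-- There are finite abelian groups `G n` with `|G n| → ∞` and symmetric generating sets `S n`
such that the lazy simple random walks on `Cay(G n, S n)` satisfy the product condition but do
not have cutoff in total variation. -/
theorem result : ∃ (G : ℕ → Type) (_ : ∀ n, AddCommGroup (G n)) (_ : ∀ n, Fintype (G n))
    (_ : ∀ n, DecidableEq (G n)) (S : ∀ n, Finset (G n)),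
    (∀ n, ∀ s ∈ S n, -s ∈ S n) ∧ (∀ n, (0 : G n) ∉ S n) ∧
    (∀ n, AddSubgroup.closure (S n : Set (G n)) = ⊤) ∧
    Tendsto (fun n => Fintype.card (G n)) atTop atTop ∧
    (∀ n, ∀ ε : ℝ, 0 < ε → ∃ t, tvDist (lazyCayley (S n)) t ≤ ε) ∧
    Tendsto (fun n => (tMix (lazyCayley (S n)) (1 / 4) : ℝ) / tRel (lazyCayley (S n)))
      atTop atTop ∧
    ¬ (∀ ε : ℝ, 0 < ε → ε < 1 / 2 →
      Tendsto (fun n => (tMix (lazyCayley (S n)) ε : ℝ) / (tMix (lazyCayley (S n)) (1 - ε) : ℝ))
        atTop (𝓝 1)) := by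
  choose G i1 i2 i3 S hsym h0 hgen hcard h1 h2 h3 h4 h5 h6 h7 h8 using
    fun n : ℕ => Pool.Agent.H16.TG.disc (n + 10) (by omega)
  have key := no_cutoff G (fun n => Pool.Agent.H16.TG.lz (S n)) h1 h3 h4 h5 h6 h8
  refine ⟨G, i1, i2, i3, S, hsym, h0, fun n => gen_closure _ (hgen n), ?_, ?_, ?_, ?_⟩
  · exact tendsto_atTop_mono (fun n => (Nat.le_add_right n 10).trans (hcard n)) tendsto_id
  · intro n ε hε
    rw [lazyCayley_eq]
    obtain ⟨t, ht⟩ := h3 n ε hε
    exact ⟨t, tvDist_le ht⟩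
  · simp only [lazyCayley_eq]
    exact key.1
  · intro hall
    obtain ⟨ε, e1, e2, e3⟩ := key.2
    apply e3
    have := hall ε e1 e2
    simp only [lazyCayley_eq] at this
    exact this

end Pool.Agent.Results.MP_8d2225_pr.NoCutoff
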